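import Mathlib
import Pool.Agent.Helper82.JDPDefs
import Pool.Agent.Helper82.JDPMain

set_option autoImplicit false

open scoped BigOperators
open Pool.Agent.Helper82.JDP

/-- Logarithmic lower bound on the supply needed for jointly private welfare maximisation.
The hypothesis on `s` says that the supply level `s` suffices for `n` agents and `m` items. -/
theorem Pool.Agent.Results.MP_a8f5d0_lc.LogLowerBound.result
    {ε α β δ : ℝ} (hε : 0 < ε) (hε' : ε ≤ 1 / 8) (hα : 0 < α) (hα' : α ≤ 1 / 256)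
    (hβ : β < 1) (hδ : 0 ≤ δ) (m : ℕ) (hm : 64 ≤ m) (hm' : 64 / (1 - β) ^ 2 ≤ m)
    (hδ' : δ * (m * Real.log m) ≤ ε) :
    ∃ n : ℕ, (n : ℝ) ≤ m * Real.log m / (32 * ε * α) ∧
      ∀ s : ℕ,
        (∀ supply : Fin m → ℕ, (∀ j, s ≤ supply j) →
          ∃ M : (Fin n → Finset (Fin m) → ℝ) → PMF (Fin n → Finset (Fin m)),
            Accurate α β supply M ∧ JointlyPrivate ε δ M) →
        Real.log m / (50 * ε * α) < s :=
  Pool.Agent.Helper82.JDP.main hε hε' hα hα' hβ hδ m hm hm' hδ'
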